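import Mathlib

/-!
# `MP_dd5ef2_co`: the sum over graphs of the products of even-triple fractions is `2^(o(n^2))`

Sampling proof: the fractions of a graph are approximated by the fractions in a random sample of
`m` vertices; the sampled fractions depend only on the `m n` bits between the sample and all
vertices, and for fixed sampled fractions `Y_ij(0) + Y_ij(1) = 1`.
-/

set_option autoImplicit false
open Classical

open scoped BigOperators

namespace Pool.Agent.helper23.DD

variable {n m : ℕ}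

/-- the number of an adjacency -/
noncomputable def bt (p : Prop) : ℕ := if p then 1 else 0

/-- second moment of a sum of `m` samples of a function with sum zero -/
lemma second_moment (g : Fin n → ℝ) (hg : ∑ k, g k = 0) (hg1 : ∀ k, g k ^ 2 ≤ 1) (m : ℕ) :
    ∑ s : Fin m → Fin n, (∑ t, g (s t)) ^ 2 ≤ m * (n : ℝ) ^ m := by
  induction m with
  | zero => simp
  | succ m ih =>
    rw [← (Fin.consEquiv fun _ => Fin n).sum_comp, Fintype.sum_prod_type]
    have h1 : ∀ (k : Fin n) (s : Fin m → Fin n),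
        (∑ t, g ((Fin.consEquiv fun _ => Fin n) (k, s) t)) ^ 2 =
          g k ^ 2 + 2 * (g k * ∑ t, g (s t)) + (∑ t, g (s t)) ^ 2 := by
      intro k s
      rw [Fin.sum_univ_succ]
      simp only [Fin.consEquiv_apply, Fin.cons_zero, Fin.cons_succ]
      ring
    simp only [h1, Finset.sum_add_distrib, ← Finset.mul_sum, Finset.sum_const, Finset.card_univ,
      Fintype.card_pi, Fintype.card_fin, Finset.prod_const, nsmul_eq_mul]
    rw [← Finset.sum_mul, hg]
    have h2 : ∑ k, g k ^ 2 ≤ n := by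
      calc ∑ k, g k ^ 2 ≤ ∑ _k : Fin n, (1 : ℝ) := Finset.sum_le_sum fun k _ => hg1 k
        _ = n := by simp
    have h3 : (0 : ℝ) ≤ (n : ℝ) ^ m := by positivity
    have h4 : (0 : ℝ) ≤ n := by positivity
    have h5 := mul_le_mul_of_nonneg_left h2 h3
    have h6 := mul_le_mul_of_nonneg_left ih h4
    push_cast
    rw [pow_succ]
    nlinarith [h5, h6]

/-- the elementary inequality -/
lemma le_mul_exp {P Y η θ : ℝ} (hY : 0 ≤ Y) (hη : 0 < η) (hθ : 0 < θ) :
    P ≤ (Y + η) * Real.exp ((θ + (P - Y) ^ 2 / θ) / η) := by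
  have h1 : |P - Y| ≤ θ + (P - Y) ^ 2 / θ := by
    rw [← sq_abs (P - Y)]
    have h2 : 0 ≤ (|P - Y| - θ) ^ 2 / θ := by positivity
    have h3 : (|P - Y| - θ) ^ 2 / θ = |P - Y| ^ 2 / θ - 2 * |P - Y| + θ := by
      field_simp
      ring
    have h4 := abs_nonneg (P - Y)
    linarith
  have h5 : 1 + |P - Y| / η ≤ Real.exp ((θ + (P - Y) ^ 2 / θ) / η) := by
    have h6 : |P - Y| / η ≤ (θ + (P - Y) ^ 2 / θ) / η := by gcongr
    have h7 := Real.add_one_le_exp ((θ + (P - Y) ^ 2 / θ) / η)
    linarith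
  have h8 : P ≤ (Y + η) * (1 + |P - Y| / η) := by
    have h9 : (Y + η) * (1 + |P - Y| / η) = Y + η + Y * |P - Y| / η + |P - Y| := by
      field_simp
      ring
    have h10 : 0 ≤ Y * |P - Y| / η := by positivity
    have h11 := le_abs_self (P - Y)
    linarith
  exact h8.trans (mul_le_mul_of_nonneg_left h5 (by linarith))

/-- the indicator of an even triple -/
noncomputable def ev (a b c : Prop) : ℝ := if Even (bt a + bt b + bt c) then 1 else 0

lemma ev_add (b c : Prop) : ev True b c + ev False b c = 1 := by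
  unfold ev bt
  by_cases hb : b <;> by_cases hc : c <;> simp [hb, hc, Nat.even_add_one] <;> decide

lemma ev_nonneg (a b c : Prop) : 0 ≤ ev a b c := by
  unfold ev
  split_ifs <;> norm_num

lemma ev_le_one (a b c : Prop) : ev a b c ≤ 1 := by
  unfold ev
  split_ifs <;> norm_num

/-- the fraction of all vertices -/
noncomputable def PP (G : SimpleGraph (Fin n)) (i j : Fin n) : ℝ :=
  (∑ k, ev (G.Adj i j) (G.Adj i k) (G.Adj j k)) / n

/-- the fraction in the sample, `c` the adjacencies to the sample -/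
noncomputable def YY (a : Prop) (c : Fin n → Fin m → Bool) (i j : Fin n) : ℝ :=
  (∑ t, ev a (c i t = true) (c j t = true)) / m

lemma YY_nonneg (a : Prop) (c : Fin n → Fin m → Bool) (i j : Fin n) : 0 ≤ YY a c i j :=
  div_nonneg (Finset.sum_nonneg fun _ _ => ev_nonneg _ _ _) (Nat.cast_nonneg _)

lemma YY_add (hm : 0 < m) (c : Fin n → Fin m → Bool) (i j : Fin n) :
    YY True c i j + YY False c i j = 1 := by
  unfold YY
  rw [← add_div, ← Finset.sum_add_distrib]
  simp only [ev_add, Finset.sum_const, Finset.card_univ, Fintype.card_fin, nsmul_eq_mul, mul_one]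
  exact div_self (by positivity)

/-- the fraction in the statement is at most `PP` -/
lemma frac_le (hn : 3 ≤ n) (G : SimpleGraph (Fin n)) (i j : Fin n) (hij : i < j) :
    (((Finset.univ.filter (fun k : Fin n => k ≠ i ∧ k ≠ j ∧
                Even ((if G.Adj i j then 1 else 0) + (if G.Adj i k then 1 else 0)
                  + (if G.Adj j k then 1 else 0) : ℕ))).card : ℝ) / ((n : ℝ) - 2)) ≤ PP G i j := by
  set B := Finset.univ.filter (fun k : Fin n => Even (bt (G.Adj i j) + bt (G.Adj i k)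
    + bt (G.Adj j k))) with hB
  have hi : i ∈ B := by
    rw [hB, Finset.mem_filter]
    refine ⟨Finset.mem_univ _, ?_⟩
    unfold bt
    by_cases h : G.Adj i j
    · simp [h, G.adj_comm j i]
    · simp [h, G.adj_comm j i]
  have hj : j ∈ B := by
    rw [hB, Finset.mem_filter]
    refine ⟨Finset.mem_univ _, ?_⟩
    unfold bt
    by_cases h : G.Adj i j
    · simp [h]
    · simp [h]
  have hA : Finset.univ.filter (fun k : Fin n => k ≠ i ∧ k ≠ j ∧
                Even ((if G.Adj i j then 1 else 0) + (if G.Adj i k then 1 else 0)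
                  + (if G.Adj j k then 1 else 0) : ℕ)) = (B.erase i).erase j := by
    ext k
    simp only [Finset.mem_filter, Finset.mem_erase, Finset.mem_univ, true_and, hB, bt]
    tauto
  have hne : j ∈ B.erase i := Finset.mem_erase.2 ⟨(ne_of_lt hij).symm, hj⟩
  have hc1 : (B.erase i).card = B.card - 1 := Finset.card_erase_of_mem hi
  have hc2 : ((B.erase i).erase j).card = (B.erase i).card - 1 := Finset.card_erase_of_mem hne
  have hc3 : 0 < B.card := Finset.card_pos.2 ⟨i, hi⟩
  have hc4 : 0 < (B.erase i).card := Finset.card_pos.2 ⟨j, hne⟩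
  have hc5 : B.card ≤ n := by
    calc B.card ≤ (Finset.univ : Finset (Fin n)).card := Finset.card_le_card (Finset.subset_univ _)
      _ = n := by simp
  have hcard : ((((B.erase i).erase j).card : ℕ) : ℝ) = (B.card : ℝ) - 2 := by
    have : ((B.erase i).erase j).card + 2 = B.card := by omega
    rw [← this]
    push_cast
    ring
  have hPP : PP G i j = (B.card : ℝ) / n := by
    unfold PP ev
    rw [Finset.sum_ite, Finset.sum_const_zero, add_zero, Finset.sum_const, nsmul_eq_mul, mul_one]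
  have hn' : (3 : ℝ) ≤ n := by exact_mod_cast hn
  have hB' : (B.card : ℝ) ≤ n := by exact_mod_cast hc5
  rw [hA, hcard, hPP, div_le_div_iff₀ (by linarith) (by linarith)]
  nlinarith

/-- the adjacencies to a sample -/
noncomputable def cc (G : SimpleGraph (Fin n)) (s : Fin m → Fin n) : Fin n → Fin m → Bool :=
  fun i t => decide (G.Adj i (s t))

lemma var_bound (hn : 0 < n) (hm : 0 < m) (G : SimpleGraph (Fin n)) (i j : Fin n) :
    ∑ s : Fin m → Fin n, (PP G i j - YY (G.Adj i j) (cc G s) i j) ^ 2 ≤ (n : ℝ) ^ m / m := by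
  have hn' : (0 : ℝ) < n := by exact_mod_cast hn
  have hm' : (0 : ℝ) < m := by exact_mod_cast hm
  set g : Fin n → ℝ := fun k => PP G i j - ev (G.Adj i j) (G.Adj i k) (G.Adj j k) with hg
  have hPP : (n : ℝ) * PP G i j = ∑ k, ev (G.Adj i j) (G.Adj i k) (G.Adj j k) := by
    unfold PP
    field_simp
  have hP0 : 0 ≤ PP G i j := div_nonneg (Finset.sum_nonneg fun _ _ => ev_nonneg _ _ _) hn'.le
  have hP1 : PP G i j ≤ 1 := by
    unfold PP
    rw [div_le_one hn']
    calc ∑ k, ev (G.Adj i j) (G.Adj i k) (G.Adj j k) ≤ ∑ _k : Fin n, (1 : ℝ) :=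
          Finset.sum_le_sum fun k _ => ev_le_one _ _ _
      _ = n := by simp
  have hg0 : ∑ k, g k = 0 := by
    simp only [hg, Finset.sum_sub_distrib, Finset.sum_const, Finset.card_univ, Fintype.card_fin,
      nsmul_eq_mul]
    linarith
  have hg1 : ∀ k, g k ^ 2 ≤ 1 := by
    intro k
    have h1 := ev_nonneg (G.Adj i j) (G.Adj i k) (G.Adj j k)
    have h2 := ev_le_one (G.Adj i j) (G.Adj i k) (G.Adj j k)
    have h3 : |g k| ≤ 1 := by
      rw [abs_le]
      constructor <;> simp only [hg] <;> linarith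
    calc g k ^ 2 = |g k| ^ 2 := (sq_abs _).symm
      _ ≤ 1 := pow_le_one₀ (abs_nonneg _) h3
  have h1 : ∀ s : Fin m → Fin n, (PP G i j - YY (G.Adj i j) (cc G s) i j) ^ 2 =
      (∑ t, g (s t)) ^ 2 / (m : ℝ) ^ 2 := by
    intro s
    have h2 : ∑ t, g (s t) = m * (PP G i j - YY (G.Adj i j) (cc G s) i j) := by
      unfold YY cc
      simp only [hg, Finset.sum_sub_distrib, Finset.sum_const, Finset.card_univ, Fintype.card_fin,
        nsmul_eq_mul, decide_eq_true_eq]
      field_simp
    rw [h2]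
    field_simp
  simp only [h1]
  rw [← Finset.sum_div]
  have h3 := second_moment g hg0 hg1 m
  rw [div_le_div_iff₀ (by positivity) hm']
  calc (∑ s : Fin m → Fin n, (∑ t, g (s t)) ^ 2) * m ≤ (m * (n : ℝ) ^ m) * m :=
        mul_le_mul_of_nonneg_right h3 hm'.le
    _ = _ := by ring

lemma exists_sample (hn : 0 < n) (hm : 0 < m) (G : SimpleGraph (Fin n)) :
    ∃ s : Fin m → Fin n, ∑ i, ∑ j, (PP G i j - YY (G.Adj i j) (cc G s) i j) ^ 2 ≤
      (n : ℝ) ^ 2 / m := by
  have hn' : (0 : ℝ) < n := by exact_mod_cast hn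
  have hm' : (0 : ℝ) < m := by exact_mod_cast hm
  haveI : Nonempty (Fin n) := ⟨⟨0, hn⟩⟩
  have h1 : ∑ s : Fin m → Fin n, ∑ i, ∑ j, (PP G i j - YY (G.Adj i j) (cc G s) i j) ^ 2 ≤
      ∑ _s : Fin m → Fin n, (n : ℝ) ^ 2 / m := by
    rw [Finset.sum_comm]
    have h2 : ∀ i : Fin n, ∑ s : Fin m → Fin n, ∑ j, (PP G i j - YY (G.Adj i j) (cc G s) i j) ^ 2 ≤
        n * ((n : ℝ) ^ m / m) := by
      intro i
      rw [Finset.sum_comm]
      calc ∑ j, ∑ s : Fin m → Fin n, (PP G i j - YY (G.Adj i j) (cc G s) i j) ^ 2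
          ≤ ∑ _j : Fin n, (n : ℝ) ^ m / m := Finset.sum_le_sum fun j _ => var_bound hn hm G i j
        _ = _ := by simp
    calc ∑ i : Fin n, ∑ s : Fin m → Fin n, ∑ j, (PP G i j - YY (G.Adj i j) (cc G s) i j) ^ 2
        ≤ ∑ _i : Fin n, n * ((n : ℝ) ^ m / m) := Finset.sum_le_sum fun i _ => h2 i
      _ = ∑ _s : Fin m → Fin n, (n : ℝ) ^ 2 / m := by
          simp only [Finset.sum_const, Finset.card_univ, Fintype.card_fin, Fintype.card_pi,
            Finset.prod_const, nsmul_eq_mul]
          push_cast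
          field_simp
  obtain ⟨s, -, hs⟩ := Finset.exists_le_of_sum_le (Finset.univ_nonempty) h1
  exact ⟨s, hs⟩

/-- the product of the sampled fractions -/
noncomputable def HH (η : ℝ) (G : SimpleGraph (Fin n)) (c : Fin n → Fin m → Bool) : ℝ :=
  ∏ i, ∏ j, if i < j then YY (G.Adj i j) c i j + η else 1

lemma HH_nonneg {η : ℝ} (hη : 0 ≤ η) (G : SimpleGraph (Fin n)) (c : Fin n → Fin m → Bool) :
    0 ≤ HH η G c := by
  refine Finset.prod_nonneg fun i _ => Finset.prod_nonneg fun j _ => ?_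
  split_ifs
  · exact add_nonneg (YY_nonneg _ _ _ _) hη
  · exact zero_le_one

/-- the sum over the graphs for fixed sampled fractions -/
lemma sum_HH {η : ℝ} (hη : 0 ≤ η) (hm : 0 < m) (c : Fin n → Fin m → Bool) :
    ∑ G : SimpleGraph (Fin n), HH η G c ≤ (1 + 2 * η) ^ (n ^ 2) := by
  set f : {p : Fin n × Fin n // p.1 < p.2} → Bool → ℝ :=
    fun p b => YY (b = true) c p.1.1 p.1.2 + η with hf
  have hf0 : ∀ p b, 0 ≤ f p b := fun p b => add_nonneg (YY_nonneg _ _ _ _) hη
  set e : SimpleGraph (Fin n) → ({p : Fin n × Fin n // p.1 < p.2} → Bool) :=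
    fun G p => decide (G.Adj p.1.1 p.1.2) with he
  have hinj : Function.Injective e := by
    intro G G' h
    have key : ∀ i j : Fin n, i < j → (G.Adj i j ↔ G'.Adj i j) := by
      intro i j hij
      have h1 := congrFun h ⟨(i, j), hij⟩
      simpa [he] using h1
    ext i j
    rcases lt_trichotomy i j with hij | hij | hij
    · exact key i j hij
    · subst hij
      simp
    · rw [G.adj_comm, G'.adj_comm]
      exact key j i hij
  have h1 : ∀ G : SimpleGraph (Fin n), HH η G c = ∏ p, f p (e G p) := by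
    intro G
    unfold HH
    rw [← Finset.prod_product']
    rw [Finset.univ_product_univ, Finset.prod_ite, Finset.prod_const_one, mul_one]
    rw [Finset.prod_subtype (p := fun p : Fin n × Fin n => p.1 < p.2) _ (by simp)]
    refine Finset.prod_congr rfl fun p _ => ?_
    simp [hf, he]
  simp only [h1]
  calc ∑ G : SimpleGraph (Fin n), ∏ p, f p (e G p)
      = ∑ b ∈ Finset.univ.map ⟨e, hinj⟩, ∏ p, f p (b p) := by rw [Finset.sum_map]; rfl
    _ ≤ ∑ b : ({p : Fin n × Fin n // p.1 < p.2} → Bool), ∏ p, f p (b p) :=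
        Finset.sum_le_sum_of_subset_of_nonneg (Finset.subset_univ _)
          fun b _ _ => Finset.prod_nonneg fun p _ => hf0 p _
    _ = ∏ p, ∑ b : Bool, f p b := by
        rw [Finset.prod_univ_sum, Fintype.piFinset_univ]
    _ = ∏ _p : {p : Fin n × Fin n // p.1 < p.2}, (1 + 2 * η) := by
        refine Finset.prod_congr rfl fun p _ => ?_
        rw [Fintype.sum_bool]
        have h2 := YY_add hm c p.1.1 p.1.2
        simp only [hf]
        simp only [reduceCtorEq]
        linarith
    _ = (1 + 2 * η) ^ (Fintype.card {p : Fin n × Fin n // p.1 < p.2}) := by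
        rw [Finset.prod_const, Finset.card_univ]
    _ ≤ (1 + 2 * η) ^ (n ^ 2) := by
        refine pow_le_pow_right₀ (by linarith) ?_
        calc Fintype.card {p : Fin n × Fin n // p.1 < p.2} ≤ Fintype.card (Fin n × Fin n) :=
              Fintype.card_subtype_le _
          _ = n ^ 2 := by simp [sq]

/-- the bound for one graph -/
lemma prod_le (hn : 3 ≤ n) (hm : 0 < m) {η θ : ℝ} (hη : 0 < η) (hθ : 0 < θ)
    (G : SimpleGraph (Fin n)) :
    ∏ i : Fin n, ∏ j : Fin n,
          (if i < j then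
            (((Finset.univ.filter (fun k : Fin n => k ≠ i ∧ k ≠ j ∧
                Even ((if G.Adj i j then 1 else 0) + (if G.Adj i k then 1 else 0)
                  + (if G.Adj j k then 1 else 0) : ℕ))).card : ℝ) / ((n : ℝ) - 2))
          else 1) ≤
      Real.exp ((n : ℝ) ^ 2 * (θ + 1 / (m * θ)) / η) *
        ∑ c : Fin n → Fin m → Bool, HH η G c := by
  have hn0 : 0 < n := by omega
  have hm' : (0 : ℝ) < m := by exact_mod_cast hm
  have hn' : (3 : ℝ) ≤ n := by exact_mod_cast hn
  obtain ⟨s, hs⟩ := exists_sample hn0 hm G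
  set u : Fin n → Fin n → ℝ := fun i j => (θ + (PP G i j - YY (G.Adj i j) (cc G s) i j) ^ 2 / θ) / η
    with hu
  have hu0 : ∀ i j, 0 ≤ u i j := fun i j => by
    simp only [hu]
    positivity
  have h1 : ∏ i : Fin n, ∏ j : Fin n,
          (if i < j then
            (((Finset.univ.filter (fun k : Fin n => k ≠ i ∧ k ≠ j ∧
                Even ((if G.Adj i j then 1 else 0) + (if G.Adj i k then 1 else 0)
                  + (if G.Adj j k then 1 else 0) : ℕ))).card : ℝ) / ((n : ℝ) - 2))
          else 1) ≤ ∏ i : Fin n, ∏ j : Fin n,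
            ((if i < j then YY (G.Adj i j) (cc G s) i j + η else 1) * Real.exp (u i j)) := by
    have h0 : ∀ i j : Fin n, (0 : ℝ) ≤ (if i < j then
            (((Finset.univ.filter (fun k : Fin n => k ≠ i ∧ k ≠ j ∧
                Even ((if G.Adj i j then 1 else 0) + (if G.Adj i k then 1 else 0)
                  + (if G.Adj j k then 1 else 0) : ℕ))).card : ℝ) / ((n : ℝ) - 2))
          else 1) := by
      intro i j
      by_cases hij : i < j
      · rw [if_pos hij]
        exact div_nonneg (Nat.cast_nonneg _) (by linarith)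
      · rw [if_neg hij]
        norm_num
    refine Finset.prod_le_prod (fun i _ => Finset.prod_nonneg fun j _ => h0 i j) fun i _ =>
      Finset.prod_le_prod (fun j _ => h0 i j) fun j _ => ?_
    by_cases hij : i < j
    · rw [if_pos hij, if_pos hij]
      exact (frac_le hn G i j hij).trans (le_mul_exp (YY_nonneg _ _ _ _) hη hθ)
    · rw [if_neg hij, if_neg hij, one_mul]
      exact Real.one_le_exp (hu0 i j)
  refine h1.trans ?_
  simp only [Finset.prod_mul_distrib, ← Real.exp_sum]
  rw [mul_comm]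
  have h2 : ∑ i, ∑ j, u i j ≤ (n : ℝ) ^ 2 * (θ + 1 / (m * θ)) / η := by
    have h3 : ∑ i, ∑ j, u i j = ((n : ℝ) ^ 2 * θ +
        (∑ i, ∑ j, (PP G i j - YY (G.Adj i j) (cc G s) i j) ^ 2) / θ) / η := by
      simp only [hu, ← Finset.sum_div, Finset.sum_add_distrib, Finset.sum_const, Finset.card_univ,
        Fintype.card_fin, nsmul_eq_mul]
      ring
    rw [h3]
    have h4 : (∑ i, ∑ j, (PP G i j - YY (G.Adj i j) (cc G s) i j) ^ 2) / θ ≤
        ((n : ℝ) ^ 2 / m) / θ := by gcongr
    have h5 : (n : ℝ) ^ 2 * (θ + 1 / (m * θ)) = (n : ℝ) ^ 2 * θ + ((n : ℝ) ^ 2 / m) / θ := by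
      field_simp
    rw [h5]
    gcongr
  refine mul_le_mul (Real.exp_le_exp.2 h2) ?_ (HH_nonneg hη.le G _) (Real.exp_pos _).le
  exact Finset.single_le_sum (f := fun c => HH η G c) (fun c _ => HH_nonneg hη.le G c)
    (Finset.mem_univ (cc G s))

/-- the bound for the sum -/
lemma sum_le (hn : 3 ≤ n) (hm : 0 < m) {η θ : ℝ} (hη : 0 < η) (hθ : 0 < θ) :
    ∑ G : SimpleGraph (Fin n), ∏ i : Fin n, ∏ j : Fin n,
          (if i < j then
            (((Finset.univ.filter (fun k : Fin n => k ≠ i ∧ k ≠ j ∧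
                Even ((if G.Adj i j then 1 else 0) + (if G.Adj i k then 1 else 0)
                  + (if G.Adj j k then 1 else 0) : ℕ))).card : ℝ) / ((n : ℝ) - 2))
          else 1) ≤
      Real.exp ((n : ℝ) ^ 2 * (θ + 1 / (m * θ)) / η) * ((2 : ℝ) ^ (m * n) * (1 + 2 * η) ^ (n ^ 2))
      := by
  refine (Finset.sum_le_sum fun G _ => prod_le hn hm hη hθ G).trans ?_
  rw [← Finset.mul_sum, Finset.sum_comm]
  refine mul_le_mul_of_nonneg_left ?_ (Real.exp_pos _).le
  calc ∑ c : Fin n → Fin m → Bool, ∑ G : SimpleGraph (Fin n), HH η G c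
      ≤ ∑ _c : Fin n → Fin m → Bool, (1 + 2 * η) ^ (n ^ 2) :=
        Finset.sum_le_sum fun c _ => sum_HH hη.le hm c
    _ = (2 : ℝ) ^ (m * n) * (1 + 2 * η) ^ (n ^ 2) := by
        simp only [Finset.sum_const, Finset.card_univ, Fintype.card_pi, Fintype.card_bool,
          Finset.prod_const, Fintype.card_fin, nsmul_eq_mul]
        push_cast
        rw [← pow_mul]

theorem main : ∀ ε : ℝ, 0 < ε → ∃ N : ℕ, ∀ n : ℕ, N ≤ n →
      (∑ G : SimpleGraph (Fin n),
        ∏ i : Fin n, ∏ j : Fin n,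
          (if i < j then
            (((Finset.univ.filter (fun k : Fin n => k ≠ i ∧ k ≠ j ∧
                Even ((if G.Adj i j then 1 else 0) + (if G.Adj i k then 1 else 0)
                  + (if G.Adj j k then 1 else 0) : ℕ))).card : ℝ) / ((n : ℝ) - 2))
          else 1)) ≤ (2 : ℝ) ^ (ε * (n : ℝ) ^ 2) := by
  intro ε hε
  have hl : 0 < Real.log 2 := Real.log_pos (by norm_num)
  set η : ℝ := ε * Real.log 2 / 8 with hη
  have hη0 : 0 < η := by positivity
  set θ : ℝ := η ^ 2 with hθ
  have hθ0 : 0 < θ := by positivity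
  obtain ⟨m, hm⟩ := exists_nat_gt (1 / θ ^ 2)
  have hm0 : (0 : ℝ) < m := lt_trans (by positivity) hm
  have hm1 : 0 < m := by exact_mod_cast hm0
  obtain ⟨N, hN⟩ := exists_nat_gt (2 * m / ε)
  refine ⟨max N 3, fun n hn => ?_⟩
  have hn3 : 3 ≤ n := le_trans (le_max_right _ _) hn
  have hnN : (N : ℝ) ≤ n := by exact_mod_cast le_trans (le_max_left _ _) hn
  have hn0 : (0 : ℝ) < n := by
    have : (3 : ℝ) ≤ n := by exact_mod_cast hn3
    linarith
  refine (sum_le hn3 hm1 hη0 hθ0).trans ?_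
  have e1 : (2 : ℝ) ^ (m * n) = Real.exp (m * n * Real.log 2) := by
    rw [← Real.exp_log (show (0 : ℝ) < 2 ^ (m * n) by positivity), Real.log_pow]
    push_cast
    rfl
  have e2 : (1 + 2 * η) ^ (n ^ 2) ≤ Real.exp ((n : ℝ) ^ 2 * (2 * η)) := by
    have e3 := Real.add_one_le_exp (2 * η)
    calc (1 + 2 * η) ^ (n ^ 2) ≤ (Real.exp (2 * η)) ^ (n ^ 2) :=
          pow_le_pow_left₀ (by positivity) (by linarith) _
      _ = _ := by
          rw [← Real.exp_nat_mul]
          push_cast
          rfl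
  have e4 : (2 : ℝ) ^ (ε * (n : ℝ) ^ 2) = Real.exp (ε * (n : ℝ) ^ 2 * Real.log 2) := by
    rw [Real.rpow_def_of_pos (by norm_num)]
    ring_nf
  have e5 : 1 / (m * θ) ≤ θ := by
    rw [div_le_iff₀ (by positivity)]
    rw [div_lt_iff₀ (by positivity)] at hm
    nlinarith
  have e6 : (n : ℝ) ^ 2 * (θ + 1 / (m * θ)) / η ≤ (n : ℝ) ^ 2 * (2 * η) := by
    rw [div_le_iff₀ hη0]
    have : θ + 1 / (m * θ) ≤ 2 * η * η := by
      have : θ = η * η := by rw [hθ]; ring
      linarith
    calc (n : ℝ) ^ 2 * (θ + 1 / (m * θ)) ≤ (n : ℝ) ^ 2 * (2 * η * η) :=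
          mul_le_mul_of_nonneg_left this (by positivity)
      _ = _ := by ring
  have e7 : (m : ℝ) ≤ ε * n / 2 := by
    rw [div_lt_iff₀ hε] at hN
    nlinarith
  calc Real.exp ((n : ℝ) ^ 2 * (θ + 1 / (m * θ)) / η) * ((2 : ℝ) ^ (m * n) * (1 + 2 * η) ^ (n ^ 2))
      ≤ Real.exp ((n : ℝ) ^ 2 * (2 * η)) * (Real.exp (m * n * Real.log 2) *
          Real.exp ((n : ℝ) ^ 2 * (2 * η))) := by
        rw [e1]
        gcongr
    _ = Real.exp ((n : ℝ) ^ 2 * (2 * η) + (m * n * Real.log 2 + (n : ℝ) ^ 2 * (2 * η))) := by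
        rw [Real.exp_add, Real.exp_add]
    _ ≤ (2 : ℝ) ^ (ε * (n : ℝ) ^ 2) := by
        rw [e4]
        refine Real.exp_le_exp.2 ?_
        have e8 : (m : ℝ) * n * Real.log 2 ≤ ε * n / 2 * n * Real.log 2 := by gcongr
        have e9 : (n : ℝ) ^ 2 * (2 * η) = ε * (n : ℝ) ^ 2 * Real.log 2 / 4 := by
          rw [hη]
          ring
        rw [e9]
        nlinarith

end Pool.Agent.helper23.DD
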